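import Mathlib

set_option autoImplicit false

open Ordinal Cardinal Topology Set Filter

namespace Pool.Agent.Results.MP_23516e_gt.Counterexample

/-- `X` is cleavable over `Y`: for every subset `A` of `X` there is a continuous map
`f : X → Y` with `f ⁻¹ (f (A)) = A`. -/
def IsCleavableOver (X Y : Type*) [TopologicalSpace X] [TopologicalSpace Y] : Prop :=
  ∀ A : Set X, ∃ f : X → Y, Continuous f ∧ f ⁻¹' (f '' A) = A

/-! ### Arithmetic in `ω₁ * ω` -/

/-- `T = ω₁ * ω`. -/
noncomputable def T : Ordinal.{0} := ω₁ * ω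

lemma W_pos : (0 : Ordinal.{0}) < ω₁ := omega_pos 1

lemma one_lt_W : (1 : Ordinal.{0}) < ω₁ := by
  exact one_lt_omega0.trans omega0_lt_omega_one

lemma one_add_W : (1 : Ordinal.{0}) + ω₁ = ω₁ := by
  apply one_add_of_omega0_le
  exact omega0_lt_omega_one.le

lemma T_pos : 0 < T := mul_pos W_pos omega0_pos

lemma one_add_le {a : Ordinal.{0}} (ha : a ≤ ω₁) : 1 + a ≤ ω₁ := by
  calc 1 + a ≤ 1 + ω₁ := by gcongr
    _ = ω₁ := one_add_W

/-- The point `ω₁ * k + (1 + a)`. -/
noncomputable def pt (k : ℕ) (a : Ordinal.{0}) : Ordinal.{0} := ω₁ * (k : Ordinal.{0}) + (1 + a)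

lemma pt_lt {k : ℕ} {a : Ordinal.{0}} (ha : a ≤ ω₁) {j : ℕ} (hj : k < j) :
    pt k a ≤ ω₁ * (j : Ordinal.{0}) := by
  have h1 : pt k a ≤ ω₁ * (k : Ordinal.{0}) + ω₁ := by
    unfold pt
    gcongr
    exact one_add_le ha
  have h2 : ω₁ * (k : Ordinal.{0}) + ω₁ = ω₁ * ((k + 1 : ℕ) : Ordinal.{0}) := by
    push_cast
    rw [mul_add, mul_one]
  rw [h2] at h1
  refine h1.trans ?_
  gcongr
  omega

lemma lt_pt {k : ℕ} {a : Ordinal.{0}} {j : ℕ} (hj : j ≤ k) :
    ω₁ * (j : Ordinal.{0}) < pt k a := by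
  have h1 : ω₁ * (j : Ordinal.{0}) ≤ ω₁ * (k : Ordinal.{0}) := by gcongr
  refine h1.trans_lt ?_
  unfold pt
  have : (0 : Ordinal.{0}) < 1 + a := lt_of_lt_of_le zero_lt_one (by simp)
  simpa using this

lemma pt_lt_T {k : ℕ} {a : Ordinal.{0}} (ha : a ≤ ω₁) : pt k a < T := by
  refine (pt_lt ha (Nat.lt_succ_self k)).trans_lt ?_
  unfold T
  have := natCast_lt_omega0 (k + 1)
  exact (mul_lt_mul_iff_right₀ W_pos).2 this

lemma pt_inj {k l : ℕ} {a b : Ordinal.{0}} (ha : a ≤ ω₁) (hb : b ≤ ω₁) (h : pt k a = pt l b) :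
    k = l ∧ a = b := by
  have hk : k = l := by
    rcases lt_trichotomy k l with hlt | heq | hgt
    · have h1 := pt_lt ha hlt
      have h2 := lt_pt (a := b) (le_refl l)
      rw [h] at h1
      exact absurd h1 (not_le.2 h2)
    · exact heq
    · have h1 := pt_lt hb hgt
      have h2 := lt_pt (a := a) (le_refl k)
      rw [← h] at h1
      exact absurd h1 (not_le.2 h2)
  subst hk
  refine ⟨rfl, ?_⟩
  unfold pt at h
  simpa using h

/-! ### The compactum -/

/-- The block `ω₁ + 1`. -/
abbrev Blk : Type 1 := Set.Iic (ω₁ : Ordinal.{0})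

/-- One copy of the compactum: the one-point compactification of countably many disjoint
copies of `ω₁ + 1` (this is a copy of the ordinal `ω₁ * ω + 1`). -/
abbrev Cpt : Type 1 := OnePoint (ℕ × Blk)

/-- The counterexample: three disjoint copies of `Cpt`. -/
abbrev Spc : Type 1 := Fin 3 × Cpt

instance : CompactSpace Blk := by
  have h : Set.Iic (ω₁ : Ordinal.{0}) = Set.Icc 0 ω₁ := by
    ext x; simp
  have : IsCompact (Set.Iic (ω₁ : Ordinal.{0})) := by
    rw [h]; exact isCompact_Icc
  exact isCompact_iff_compactSpace.1 this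

instance : CompactSpace Spc := inferInstance

instance : T2Space Spc := inferInstance

instance : Infinite Spc := inferInstance

/-! ### Cleavability -/

/-- The ordinal `ω₁ * ω * 2 + 1`. -/
noncomputable def lam : Ordinal.{0} := T * 2 + 1

/-- The underlying function. -/
noncomputable def fn (c : Fin 3 → ℕ) : Spc → Ordinal.{0} := fun p =>
  OnePoint.elim p.2 (T * ((c p.1 + 1 : ℕ) : Ordinal.{0}))
    (fun q : ℕ × Blk => T * ((c p.1 : ℕ) : Ordinal.{0}) + pt (3 * q.1 + p.1) q.2.1)

lemma fn_infty (c : Fin 3 → ℕ) (i : Fin 3) :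
    fn c (i, OnePoint.infty) = T * ((c i + 1 : ℕ) : Ordinal.{0}) := rfl

lemma fn_coe (c : Fin 3 → ℕ) (i : Fin 3) (q : ℕ × Blk) :
    fn c (i, (q : OnePoint (ℕ × Blk))) =
      T * ((c i : ℕ) : Ordinal.{0}) + pt (3 * q.1 + i) q.2.1 := rfl

lemma fn_coe_lt (c : Fin 3 → ℕ) (i : Fin 3) (q : ℕ × Blk) :
    fn c (i, (q : OnePoint (ℕ × Blk))) < T * ((c i + 1 : ℕ) : Ordinal.{0}) := by
  rw [fn_coe]
  push_cast
  rw [mul_add, mul_one]
  have := pt_lt_T (k := 3 * q.1 + i) q.2.2
  gcongr

lemma fn_le (c : Fin 3 → ℕ) (hc : ∀ i, c i ≤ 1) (p : Spc) : fn c p < lam := by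
  have h0 : ∀ i, T * ((c i + 1 : ℕ) : Ordinal.{0}) ≤ T * 2 := by
    intro i
    have h2 : ((c i + 1 : ℕ) : Ordinal.{0}) ≤ 2 := by
      have : c i + 1 ≤ 2 := by have := hc i; omega
      exact_mod_cast this
    gcongr
  have h1 : fn c p ≤ T * 2 := by
    obtain ⟨i, x⟩ := p
    induction x using OnePoint.rec with
    | infty => rw [fn_infty]; exact h0 i
    | coe q => exact (fn_coe_lt c i q).le.trans (h0 i)
  unfold lam
  exact lt_of_le_of_lt h1 (by simp)

lemma fn_separates (c : Fin 3 → ℕ) {p q : Spc} (h : fn c p = fn c q) :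
    p = q ∨ (p.2 = OnePoint.infty ∧ q.2 = OnePoint.infty ∧ c p.1 = c q.1) := by
  have hT : T ≠ 0 := T_pos.ne'
  have key : ∀ (i j : Fin 3) (q : ℕ × Blk),
      fn c (i, OnePoint.infty) ≠ fn c (j, (q : OnePoint (ℕ × Blk))) := by
    intro i j q hq
    rw [fn_infty, fn_coe] at hq
    have h1 : (T * ((c j : ℕ) : Ordinal.{0}) + pt (3 * q.1 + j) q.2.1) % T =
        pt (3 * q.1 + j) q.2.1 := by
      rw [Ordinal.mul_add_mod_self, Ordinal.mod_eq_of_lt (pt_lt_T q.2.2)]
    rw [← hq] at h1
    have h2 : (T * ((c i + 1 : ℕ) : Ordinal.{0})) % T = 0 :=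
      Ordinal.mod_eq_zero_of_dvd (dvd_mul_right _ _)
    rw [h2] at h1
    have h3 := lt_pt (k := 3 * q.1 + j) (a := q.2.1) (Nat.zero_le _)
    rw [← h1] at h3
    exact absurd h3 (not_lt.2 (by simp))
  obtain ⟨i, x⟩ := p
  obtain ⟨j, y⟩ := q
  induction x using OnePoint.rec with
  | infty =>
    induction y using OnePoint.rec with
    | infty =>
      right
      refine ⟨rfl, rfl, ?_⟩
      rw [fn_infty, fn_infty] at h
      have h1 : ((c i + 1 : ℕ) : Ordinal.{0}) = ((c j + 1 : ℕ) : Ordinal.{0}) :=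
        (mul_right_injective₀ hT) h
      have h2 : c i + 1 = c j + 1 := by exact_mod_cast h1
      simpa using h2
    | coe y => exact absurd h (key i j y)
  | coe x =>
    induction y using OnePoint.rec with
    | infty => exact absurd h.symm (key j i x)
    | coe y =>
      left
      rw [fn_coe, fn_coe] at h
      have hx := pt_lt_T (k := 3 * x.1 + i) x.2.2
      have hy := pt_lt_T (k := 3 * y.1 + j) y.2.2
      have h1 : pt (3 * x.1 + i) x.2.1 = pt (3 * y.1 + j) y.2.1 := by
        have := congrArg (· % T) h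
        simp only [Ordinal.mul_add_mod_self] at this
        rwa [Ordinal.mod_eq_of_lt hx, Ordinal.mod_eq_of_lt hy] at this
      obtain ⟨h2, h3⟩ := pt_inj x.2.2 y.2.2 h1
      have hij : i = j := by
        ext
        have := i.2
        have := j.2
        omega
      have hm : x.1 = y.1 := by
        subst hij
        omega
      subst hij
      have : x = y := Prod.ext hm (Subtype.ext h3)
      rw [this]

lemma fn_continuous (c : Fin 3 → ℕ) : Continuous (fn c) := by
  rw [continuous_prod_of_discrete_left]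
  intro i
  rw [OnePoint.continuous_iff]
  constructor
  · -- continuity at infinity
    show Tendsto (fun x : ℕ × Blk => fn c (i, (x : OnePoint (ℕ × Blk)))) (coclosedCompact _)
      (𝓝 (fn c (i, OnePoint.infty)))
    rw [fn_infty]
    have hpos : (0 : Ordinal.{0}) < T * ((c i + 1 : ℕ) : Ordinal.{0}) := by
      refine mul_pos T_pos ?_
      exact_mod_cast Nat.succ_pos _
    rw [tendsto_order]
    constructor
    · intro b hb
      -- find M with b < T * c + ω₁ * M
      have hb' : b < T * ((c i : ℕ) : Ordinal.{0}) + T := by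
        have : T * ((c i + 1 : ℕ) : Ordinal.{0}) = T * ((c i : ℕ) : Ordinal.{0}) + T := by
          push_cast
          rw [mul_add, mul_one]
        rwa [this] at hb
      have hb2 : ∃ M : ℕ, b < T * ((c i : ℕ) : Ordinal.{0}) + ω₁ * (M : Ordinal.{0}) := by
        by_cases hbc : b < T * ((c i : ℕ) : Ordinal.{0})
        · exact ⟨0, by simpa using hbc⟩
        · push Not at hbc
          obtain ⟨d, rfl⟩ : ∃ d, b = T * ((c i : ℕ) : Ordinal.{0}) + d :=
            ⟨b - T * ((c i : ℕ) : Ordinal.{0}), (Ordinal.add_sub_cancel_of_le hbc).symm⟩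
          have hd : d < T := by simpa using hb'
          unfold T at hd
          rw [Ordinal.lt_mul_iff_of_isSuccLimit isSuccLimit_omega0] at hd
          obtain ⟨e, he, hde⟩ := hd
          obtain ⟨M, rfl⟩ := lt_omega0.1 he
          exact ⟨M, by gcongr⟩
      obtain ⟨M, hM⟩ := hb2
      have hcomp : IsCompact ((Set.Iio M ×ˢ (Set.univ : Set Blk)) : Set (ℕ × Blk)) :=
        (Set.finite_Iio M).isCompact.prod isCompact_univ
      have hmem : ((Set.Iio M ×ˢ (Set.univ : Set Blk)) : Set (ℕ × Blk))ᶜ ∈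
          coclosedCompact (ℕ × Blk) :=
        (hasBasis_coclosedCompact.mem_iff).2 ⟨_, ⟨hcomp.isClosed, hcomp⟩, le_refl _⟩
      filter_upwards [hmem] with x hx
      have hx' : M ≤ x.1 := by
        by_contra hlt
        push Not at hlt
        exact hx ⟨hlt, trivial⟩
      rw [fn_coe]
      refine hM.trans ?_
      have := lt_pt (k := 3 * x.1 + i) (a := x.2.1) (j := M) (by omega)
      gcongr
    · intro b hb
      filter_upwards with x
      exact (fn_coe_lt c i x).trans hb
  · show Continuous (fun x : ℕ × Blk => fn c (i, (x : OnePoint (ℕ × Blk))))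
    rw [continuous_prod_of_discrete_left]
    intro m
    show Continuous (fun a : Blk => T * ((c i : ℕ) : Ordinal.{0}) +
      (ω₁ * ((3 * m + i : ℕ) : Ordinal.{0}) + (1 + a.1)))
    have h : ∀ b : Ordinal.{0}, Continuous (fun a : Ordinal.{0} => b + a) := fun b =>
      (Ordinal.isNormal_add_right b).continuous
    exact (h _).comp ((h _).comp ((h _).comp continuous_subtype_val))

lemma cleavable : IsCleavableOver Spc (Set.Iio lam) := by
  classical
  intro A
  let c : Fin 3 → ℕ := fun i => if (i, OnePoint.infty) ∈ A then 0 else 1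
  have hc : ∀ i, c i ≤ 1 := by
    intro i
    simp only [c]
    split_ifs <;> simp
  have hcA : ∀ i j, c i = c j → ((i, OnePoint.infty) ∈ A ↔ (j, OnePoint.infty) ∈ A) := by
    intro i j hij
    simp only [c] at hij
    split_ifs at hij with h1 h2 h2 <;> simp_all
  refine ⟨fun p => ⟨fn c p, fn_le c hc p⟩, (fn_continuous c).subtype_mk _, ?_⟩
  refine Set.Subset.antisymm ?_ (Set.subset_preimage_image _ _)
  rintro p ⟨q, hqA, hq⟩
  have hq' : fn c p = fn c q := (Subtype.ext_iff.1 hq).symm
  rcases fn_separates c hq' with h | ⟨hp, hq2, hcc⟩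
  · rw [h]; exact hqA
  · have h1 := (hcA p.1 q.1 hcc)
    have hp' : p = (p.1, OnePoint.infty) := by rw [← hp]
    have hq' : q = (q.1, OnePoint.infty) := by rw [← hq2]
    rw [hp']
    rw [hq'] at hqA
    exact h1.2 hqA

/-! ### Non-embeddability -/

/-- Every neighbourhood of `x` is uncountable. -/
def IsCond {X : Type*} [TopologicalSpace X] (x : X) : Prop := ∀ U ∈ 𝓝 x, ¬ U.Countable

lemma IsCond.map {X Y : Type*} [TopologicalSpace X] [TopologicalSpace Y] {g : X → Y}
    (hg : Continuous g) (hi : Function.Injective g) {x : X} (hx : IsCond x) : IsCond (g x) := by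
  intro V hV hc
  exact hx _ (hg.continuousAt hV) (hc.preimage_of_injOn hi.injOn)

lemma countable_Iio {a : Ordinal.{0}} (ha : a < ω₁) : (Set.Iio a).Countable := by
  rw [← Cardinal.le_aleph0_iff_set_countable, Cardinal.mk_Iio_ordinal]
  have : a.card < ℵ₁ := by
    rw [← Cardinal.ord_aleph] at ha
    exact Cardinal.lt_ord.1 ha
  have h2 : a.card ≤ ℵ₀ := by
    rwa [← Cardinal.succ_aleph0, Order.lt_succ_iff] at this
  exact Cardinal.lift_le_aleph0.2 h2

lemma not_countable_Ioc {b : Ordinal.{0}} (hb : b < ω₁) : ¬ (Set.Ioc b ω₁).Countable := by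
  intro h
  have h1 : (Set.Iio (Order.succ b)).Countable := by
    apply countable_Iio
    exact (Cardinal.isSuccLimit_omega 1).succ_lt hb
  have h2 : (Set.Iio (ω₁ : Ordinal.{0})).Countable := by
    refine (h1.union h).mono ?_
    intro x hx
    rcases lt_or_ge b x with h3 | h3
    · exact Or.inr ⟨h3, le_of_lt hx⟩
    · exact Or.inl (Order.lt_succ_iff.2 h3)
  rw [← Cardinal.le_aleph0_iff_set_countable, Cardinal.mk_Iio_ordinal] at h2
  have h3 : (ω₁ : Ordinal.{0}).card ≤ ℵ₀ := Cardinal.lift_le_aleph0.1 h2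
  rw [Ordinal.card_omega] at h3
  exact absurd h3 (not_le.2 Cardinal.aleph0_lt_aleph_one)

/-- The top point of the block. -/
noncomputable def tp : Blk := ⟨ω₁, Set.mem_Iic.2 le_rfl⟩

lemma isCond_of_top : IsCond tp := by
  intro U hU hc
  rw [nhds_subtype_eq_comap] at hU
  obtain ⟨V, hV, hVU⟩ := hU
  have hV' : V ∈ 𝓝 (ω₁ : Ordinal.{0}) := hV
  obtain ⟨b, hb, hbV⟩ := exists_Ioc_subset_of_mem_nhds hV' ⟨0, W_pos⟩
  apply not_countable_Ioc hb
  have h1 : (Subtype.val '' U : Set Ordinal.{0}).Countable := hc.image _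
  refine h1.mono ?_
  intro x hx
  exact ⟨⟨x, hx.2⟩, hVU (hbV hx), rfl⟩

lemma isCond_spc (i : Fin 3) (m : ℕ) :
    IsCond ((i, ((m, tp) : ℕ × Blk)) : Fin 3 × Cpt) := by
  have hg : Continuous (fun a : Blk => ((i, ((m, a) : ℕ × Blk)) : Fin 3 × Cpt)) := by
    have h1 : Continuous (fun a : Blk => ((m, a) : ℕ × Blk)) := by fun_prop
    have h2 : Continuous (fun a : Blk => (((m, a) : ℕ × Blk) : OnePoint (ℕ × Blk))) :=
      OnePoint.continuous_coe.comp h1
    fun_prop
  have hi : Function.Injective (fun a : Blk => ((i, ((m, a) : ℕ × Blk)) : Fin 3 × Cpt)) := by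
    intro a b hab
    simpa using hab
  exact isCond_of_top.map hg hi

lemma isCond_ordinal {y : Ordinal.{0}} (hy : IsCond y) : ∃ k, y = ω₁ * k := by
  refine ⟨y / ω₁, ?_⟩
  have h0 : ω₁ * (y / ω₁) + y % ω₁ = y := Ordinal.div_add_mod y ω₁
  have hr : y % ω₁ < ω₁ := Ordinal.mod_lt y W_pos.ne'
  by_contra hne
  have hr0 : y % ω₁ ≠ 0 := by
    intro h
    rw [h, add_zero] at h0
    exact hne h0.symm
  have hrpos : 0 < y % ω₁ := pos_iff_ne_zero.2 hr0
  set k := y / ω₁
  set r := y % ω₁
  have hlt : ω₁ * k < y := by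
    rw [← h0]
    simpa using hrpos
  have hU : Set.Ioo (ω₁ * k) (Order.succ y) ∈ 𝓝 y := Ioo_mem_nhds hlt (Order.lt_succ y)
  apply hy _ hU
  have h1 : (Set.Iio (Order.succ r)).Countable := by
    apply countable_Iio
    exact (Cardinal.isSuccLimit_omega 1).succ_lt hr
  refine (h1.image (fun a => ω₁ * k + a)).mono ?_
  intro x hx
  refine ⟨x - ω₁ * k, ?_, Ordinal.add_sub_cancel_of_le hx.1.le⟩
  have hx2 : x ≤ y := Order.lt_succ_iff.1 hx.2
  rw [Set.mem_Iio, Order.lt_succ_iff]
  rw [← Ordinal.add_sub_cancel_of_le hx.1.le, ← h0] at hx2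
  simpa using hx2

/-- A limit of a sequence of distinct multiples of `ω₁` that is at most `ω₁ * ω * 2` is
`ω₁ * ω * j` with `j ≤ 2` and `j ≠ 0`. -/
lemma limit_form {y : Ordinal.{0}} (k : ℕ → Ordinal.{0}) (hk : Function.Injective k)
    (hlim : Tendsto (fun m => ω₁ * k m) atTop (𝓝 y)) (hy : y ≤ T * 2) :
    y = T * 1 ∨ y = T * 2 := by
  have hW0 : (ω₁ : Ordinal.{0}) ≠ 0 := W_pos.ne'
  set q := y / ω₁ with hq
  have h0 : ω₁ * q + y % ω₁ = y := Ordinal.div_add_mod y ω₁
  have hr : y % ω₁ < ω₁ := Ordinal.mod_lt y hW0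
  have hnot : ∀ q' : Ordinal.{0}, ¬ ∀ᶠ m in atTop, k m = q' := by
    intro q' h
    obtain ⟨N, hN⟩ := eventually_atTop.1 h
    have h1 := hN N (le_refl _)
    have h2 := hN (N + 1) (Nat.le_succ _)
    have := hk (h1.trans h2.symm)
    omega
  have hylt : y < ω₁ * (Order.succ q) := by
    rw [← h0, Ordinal.mul_succ]
    gcongr
  have hmul : ∀ a b : Ordinal.{0}, ω₁ * a < ω₁ * b ↔ a < b := fun a b =>
    mul_lt_mul_iff_right₀ W_pos
  have hup : ∀ᶠ m in atTop, k m < Order.succ q := by
    filter_upwards [hlim.eventually (gt_mem_nhds hylt)] with m hm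
    exact (hmul _ _).1 hm
  have hlow : ∀ b, ω₁ * b < y → ∀ᶠ m in atTop, b < k m := by
    intro b hb
    filter_upwards [hlim.eventually (lt_mem_nhds hb)] with m hm
    exact (hmul _ _).1 hm
  have hr0 : y = ω₁ * q := by
    by_contra hne
    have hlt : ω₁ * q < y := lt_of_le_of_ne (by rw [← h0]; simp) (Ne.symm hne)
    obtain ⟨m, hm1, hm2⟩ := (hup.and (hlow q hlt)).exists
    exact absurd (Order.lt_succ_iff.1 hm1) (not_le.2 hm2)
  have hq0 : q ≠ 0 := by
    intro h
    apply hnot 0
    filter_upwards [hup] with m hm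
    rw [h] at hm
    simpa using hm
  have hqs : ∀ q', Order.succ q' ≠ q := by
    intro q' h
    apply hnot q
    have hlt : ω₁ * q' < y := by
      rw [hr0, hmul, ← h]
      exact Order.lt_succ q'
    filter_upwards [hup, hlow q' hlt] with m hm1 hm2
    refine le_antisymm (Order.lt_succ_iff.1 hm1) ?_
    rw [← h]
    exact Order.succ_le_of_lt hm2
  have hdvd : ω ∣ q := by
    rw [← isSuccPrelimit_iff_omega0_dvd, Order.isSuccPrelimit_iff_succ_ne]
    exact hqs
  obtain ⟨j, hj⟩ := hdvd
  have hyT : y = T * j := by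
    rw [hr0, hj, T, mul_assoc]
  have hj0 : j ≠ 0 := by
    rintro rfl
    exact hq0 (by rw [hj, mul_zero])
  have hj2 : j ≤ 2 := by
    rw [hyT] at hy
    exact (mul_le_mul_iff_right₀ T_pos).1 hy
  have hj3 : j < ω := lt_of_le_of_lt hj2 (by exact_mod_cast natCast_lt_omega0 2)
  obtain ⟨n, rfl⟩ := lt_omega0.1 hj3
  have hn2 : n ≤ 2 := by exact_mod_cast hj2
  have hn0 : n ≠ 0 := by
    rintro rfl
    exact hj0 (by simp)
  have : n = 1 ∨ n = 2 := by omega
  rcases this with rfl | rfl
  · left; rw [hyT]; simp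
  · right; rw [hyT]; simp

theorem not_embeds (g : Spc → Ordinal.{0}) (hg : Continuous g) (hi : Function.Injective g)
    (hle : ∀ p, g p ≤ T * 2) : False := by
  have key : ∀ i : Fin 3, g (i, OnePoint.infty) = T * 1 ∨ g (i, OnePoint.infty) = T * 2 := by
    intro i
    have hpt : ∀ m : ℕ, ∃ k, g (i, (((m, tp) : ℕ × Blk) : OnePoint (ℕ × Blk))) =
        ω₁ * k := by
      intro m
      exact isCond_ordinal ((isCond_spc i m).map hg hi)
    choose k hk using hpt
    have hkinj : Function.Injective k := by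
      intro a b hab
      have h1 := (hk a).trans ((congrArg (fun z => ω₁ * z) hab).trans (hk b).symm)
      have h2 := hi h1
      simpa using h2
    refine limit_form k hkinj ?_ (hle _)
    have h1 : Tendsto (fun m : ℕ => (((m, tp) : ℕ × Blk) : OnePoint (ℕ × Blk)))
        atTop (𝓝 OnePoint.infty) := by
      refine OnePoint.tendsto_coe_infty.comp ?_
      rw [Filter.coclosedCompact_eq_cocompact]
      rw [Filter.hasBasis_cocompact.tendsto_right_iff]
      intro K hK
      have h3 : ((fun m : ℕ => ((m, tp) : ℕ × Blk)) ⁻¹' K).Finite := by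
        have h4 : (Prod.fst '' K).Finite := isCompact_iff_finite.1 (hK.image continuous_fst)
        refine (h4.subset ?_)
        intro m hm
        exact ⟨_, hm, rfl⟩
      have h5 := h3.compl_mem_cofinite
      rw [Nat.cofinite_eq_atTop] at h5
      filter_upwards [h5] with m hm
      exact hm
    have h2 : Tendsto (fun m : ℕ => g (i, (((m, tp) : ℕ × Blk) :
        OnePoint (ℕ × Blk)))) atTop (𝓝 (g (i, OnePoint.infty))) := by
      refine (hg.tendsto _).comp ?_
      exact tendsto_const_nhds.prodMk_nhds h1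
    refine h2.congr ?_
    intro m
    exact hk m
  have hinj : ∀ i j : Fin 3, g (i, OnePoint.infty) = g (j, OnePoint.infty) → i = j := by
    intro i j h
    have := hi h
    simpa using this
  rcases key 0 with h0 | h0 <;> rcases key 1 with h1 | h1 <;> rcases key 2 with h2 | h2
  all_goals
    first
    | exact absurd (hinj 0 1 (h0.trans h1.symm)) (by decide)
    | exact absurd (hinj 0 2 (h0.trans h2.symm)) (by decide)
    | exact absurd (hinj 1 2 (h1.trans h2.symm)) (by decide)

/-- There are an ordinal `l > ω₁` and an infinite compact Hausdorff space `X` that is cleavable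
over `l` (the space of ordinals below `l`) but is not homeomorphic to a subspace of `l`.
Witnesses: `l = ω₁ * ω * 2 + 1` and `X` = three disjoint copies of `ω₁ * ω + 1`. -/
theorem result :
    ∃ (l : Ordinal.{0}) (X : Type 1) (_ : TopologicalSpace X),
      ω₁ < l ∧ CompactSpace X ∧ T2Space X ∧ Infinite X ∧
      IsCleavableOver X (Set.Iio l) ∧ ¬ ∃ e : X → Set.Iio l, IsEmbedding e := by
  refine ⟨lam, Spc, inferInstance, ?_, inferInstance, inferInstance, inferInstance, cleavable, ?_⟩
  · have h1 : (ω₁ : Ordinal.{0}) ≤ T := by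
      have : (ω₁ : Ordinal.{0}) * 1 ≤ ω₁ * ω := by
        gcongr
        exact one_lt_omega0.le
      simpa [T] using this
    have h2 : T ≤ T * 2 := by
      have : T * 1 ≤ T * 2 := by
        gcongr
        exact one_le_two
      simpa using this
    unfold lam
    exact lt_of_le_of_lt (h1.trans h2) (by simp)
  · rintro ⟨e, he⟩
    refine not_embeds (fun p => (e p).1) (continuous_subtype_val.comp he.continuous)
      (Subtype.val_injective.comp he.injective) ?_
    intro p
    have := (e p).2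
    rw [Set.mem_Iio] at this
    unfold lam at this
    exact Order.lt_succ_iff.1 (by simpa using this)

end Pool.Agent.Results.MP_23516e_gt.Counterexample
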